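import Pool.Agent.T9h34.Q.Spec3
import Pool.Agent.T9h68.QC.TV

set_option autoImplicit false
set_option linter.unusedSectionVars false

/-!
# Piece (H3): the total variation distance made by all the stars of one exchange
-/

namespace Pool.Agent.T9h12.QC

open Finset
open Pool.Agent.PC34 (prob)
open Pool.Agent.T9h34.Q
open Pool.Agent.T9h68.QC (prob_eq)

section steps
variable {X E : Type} [Fintype X] [Fintype E] [DecidableEq E]

open Classical in
/-- the number of pairs of a parameter and a set with the property -/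
noncomputable def cnt (Θ : X → Finset E → Prop) : ℝ :=
  ∑ x, ∑ G : Finset E, if Θ x G then (1 : ℝ) else 0

/-- One star: it depends on the coordinates `get x`, which can be changed. -/
theorem one_step {P : Type} [Fintype P] (get : X → P) (upd : X → P → X)
    (h1 : ∀ x p, get (upd x p) = p) (h2 : ∀ x p q, upd (upd x p) q = upd x q)
    (h3 : ∀ x, upd x (get x) = x) (st : P → Finset E) {δ : ℝ}
    (hst : ∀ Θ : Finset E → Prop,
      ∑ p : P, ∑ G : Finset E, (open Classical in if Θ (G ∪ st p) then (1 : ℝ) else 0) ≤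
        Fintype.card P * ((∑ G : Finset E, (open Classical in if Θ G then (1 : ℝ) else 0)) + δ))
    (hP : 0 < Fintype.card P) (Θ : X → Finset E → Prop)
    (hΘ : ∀ x p G, Θ (upd x p) G ↔ Θ x G) :
    cnt (fun x G => Θ x (G ∪ st (get x))) ≤ cnt Θ + Fintype.card X * δ := by
  classical
  have hP' : (0 : ℝ) < Fintype.card P := by exact_mod_cast hP
  let e : X × P ≃ X × P :=
    { toFun := fun x => (upd x.1 x.2, get x.1)
      invFun := fun x => (upd x.1 x.2, get x.1)
      left_inv := fun x => by simp [h1, h2, h3]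
      right_inv := fun x => by simp [h1, h2, h3] }
  set H : X → ℝ := fun x => ∑ G : Finset E, if Θ x (G ∪ st (get x)) then (1 : ℝ) else 0 with hH
  have h4 : ∑ x : X × P, H (upd x.1 x.2) = ∑ x : X × P, H x.1 :=
    Fintype.sum_equiv e _ _ fun x => rfl
  rw [Fintype.sum_prod_type, Fintype.sum_prod_type] at h4
  have h5 : ∑ x : X, ∑ _p : P, H x = Fintype.card P * ∑ x, H x := by
    rw [mul_sum]
    refine sum_congr rfl fun x _ => ?_
    rw [sum_const, card_univ, nsmul_eq_mul]
  have h6 : ∀ x : X, ∑ p : P, H (upd x p) ≤ Fintype.card P *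
      ((∑ G : Finset E, if Θ x G then (1 : ℝ) else 0) + δ) := by
    intro x
    refine le_trans (le_of_eq ?_) (hst (Θ x))
    refine sum_congr rfl fun p _ => sum_congr rfl fun G _ => ?_
    rw [h1]
    exact if_congr (hΘ _ _ _) rfl rfl
  have h7 := sum_le_sum fun x (_ : x ∈ (univ : Finset X)) => h6 x
  rw [h4, h5, ← mul_sum] at h7
  have h8 := le_of_mul_le_mul_left h7 hP'
  rw [sum_add_distrib, sum_const, card_univ, nsmul_eq_mul] at h8
  exact h8

/-- All stars, one after the other. -/
theorem all_steps {κ : Type} [DecidableEq κ] (S : κ → X → Finset E) (r : κ → X → X → Prop) {δ : ℝ}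
    (I : Finset κ)
    (hstep : ∀ i ∈ I, ∀ Θ : X → Finset E → Prop,
      (∀ x y G, r i x y → (Θ x G ↔ Θ y G)) →
      cnt (fun x G => Θ x (G ∪ S i x)) ≤ cnt Θ + Fintype.card X * δ)
    (hS : ∀ i ∈ I, ∀ k ∈ I, k ≠ i → ∀ x y, r i x y → S k x = S k y)
    (Θ : X → Finset E → Prop) (hΘ : ∀ i ∈ I, ∀ x y G, r i x y → (Θ x G ↔ Θ y G)) :
    cnt (fun x G => Θ x (G ∪ I.biUnion fun i => S i x)) ≤
      cnt Θ + I.card * (Fintype.card X * δ) := by
  classical
  induction I using Finset.induction_on with
  | empty => simp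
  | insert i I hi ih =>
    have hm : ∀ k ∈ I, k ∈ insert i I := fun k hk => mem_insert_of_mem hk
    have ih' := ih (fun k hk => hstep k (hm k hk))
      (fun k hk l hl => hS k (hm k hk) l (hm l hl)) (fun k hk => hΘ k (hm k hk))
    have h1 := hstep i (mem_insert_self _ _) (fun x G => Θ x (G ∪ I.biUnion fun i => S i x)) ?_
    · have h2 : (fun x G => Θ x (G ∪ (insert i I).biUnion fun i => S i x)) =
          fun x G => Θ x ((G ∪ S i x) ∪ I.biUnion fun i => S i x) := by
        funext x G
        rw [biUnion_insert, union_assoc]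
      rw [h2, card_insert_of_notMem hi]
      push_cast
      refine h1.trans ?_
      linarith
    · intro x y G hxy
      have h3 : (I.biUnion fun i => S i x) = I.biUnion fun i => S i y := by
        refine biUnion_congr rfl fun k hk => ?_
        refine hS i (mem_insert_self _ _) k (hm k hk) ?_ x y hxy
        rintro rfl
        exact hi hk
      rw [h3]
      exact hΘ i (mem_insert_self _ _) x y _ hxy

end steps

section stars
variable {V : Type} [Fintype V] [DecidableEq V] {B d m j : ℕ}

/-- the parameters -/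
abbrev Par (V : Type) (B d m j : ℕ) : Type :=
  (Fin j → V) × (Fin j → Ix B d m → V) × (Ix B d m → Option (Rt B d m) → V)

/-- the names of the leaves of the centre `i` -/
abbrev Lf (B d m : ℕ) {j : ℕ} (C : Finset (Fin j)) (par : Fin j → Fin j) (i : Fin j) : Type :=
  Ix B d m ⊕ {w : Fin j // w ∉ C ∧ par w = i}

/-- the coordinates of the star of the centre `i` -/
def getC (C : Finset (Fin j)) (par : Fin j → Fin j) (i : Fin j) (x : Par V B d m j) :
    Option (Lf B d m C par i) → V
  | none => x.1 i
  | some (Sum.inl b) => x.2.1 i b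
  | some (Sum.inr w) => x.1 w.1

/-- change of these coordinates -/
def updC (C : Finset (Fin j)) (par : Fin j → Fin j) (i : Fin j) (x : Par V B d m j)
    (p : Option (Lf B d m C par i) → V) : Par V B d m j :=
  (fun u => if u = i then p none else
    if h : u ∉ C ∧ par u = i then p (some (Sum.inr ⟨u, h⟩)) else x.1 u,
   Function.update x.2.1 i (fun b => p (some (Sum.inl b))), x.2.2)

theorem get_updC {C : Finset (Fin j)} {par : Fin j → Fin j} {i : Fin j} (hi : i ∈ C)
    (x : Par V B d m j) (p : Option (Lf B d m C par i) → V) :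
    getC C par i (updC C par i x p) = p := by
  funext o
  match o with
  | none => simp [getC, updC]
  | some (Sum.inl b) => simp [getC, updC]
  | some (Sum.inr w) =>
    have h1 : w.1 ≠ i := fun h => w.2.1 (by rw [h]; exact hi)
    simp only [getC, updC]
    rw [if_neg h1, dif_pos w.2]

theorem upd_updC (C : Finset (Fin j)) (par : Fin j → Fin j) (i : Fin j)
    (x : Par V B d m j) (p q : Option (Lf B d m C par i) → V) :
    updC C par i (updC C par i x p) q = updC C par i x q := by
  unfold updC
  refine Prod.ext ?_ (Prod.ext ?_ rfl)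
  · funext u
    dsimp only
    split_ifs <;> rfl
  · dsimp only
    rw [Function.update_idem]

theorem upd_getC (C : Finset (Fin j)) (par : Fin j → Fin j) (i : Fin j)
    (x : Par V B d m j) : updC C par i x (getC C par i x) = x := by
  unfold updC
  refine Prod.ext ?_ (Prod.ext ?_ rfl)
  · funext u
    dsimp only
    split_ifs with h1 h2
    · rw [h1]; rfl
    · rfl
    · rfl
  · dsimp only
    exact Function.update_eq_self i x.2.1

/-- the star number `k` -/
def stK (C : Finset (Fin j)) (par : Fin j → Fin j) (k : Ix B d m ⊕ Fin j)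
    (x : Par V B d m j) : Finset (Sym2 V) :=
  match k with
  | Sum.inl b => Pool.Agent.T9h34.Q.star (x.2.2 b)
  | Sum.inr i => Pool.Agent.T9h34.Q.star (getC C par i x)

/-- `x` and `y` differ only in the coordinates of the star number `k` -/
def rel (C : Finset (Fin j)) (par : Fin j → Fin j) (k : Ix B d m ⊕ Fin j)
    (x y : Par V B d m j) : Prop :=
  match k with
  | Sum.inl b => ∃ p, y = (x.1, x.2.1, Function.update x.2.2 b p)
  | Sum.inr i => ∃ p, y = updC C par i x p

open Classical in
theorem star_sum (H : StStar) [Nonempty V] {ρ : Type} [Fintype ρ] [DecidableEq ρ] {R : ℕ}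
    (hρ : Fintype.card ρ ≤ R) (hR : R ^ 2 ≤ Fintype.card V) (Θ : Finset (Sym2 V) → Prop) :
    ∑ p : Option ρ → V, ∑ G : Finset (Sym2 V),
        (if Θ (G ∪ Pool.Agent.T9h34.Q.star p) then (1 : ℝ) else 0) ≤
      Fintype.card (Option ρ → V) * ((∑ G : Finset (Sym2 V), if Θ G then (1 : ℝ) else 0) +
        2 * (R : ℝ) / Fintype.card V * Fintype.card (Finset (Sym2 V))) := by
  have h2 := H V ρ ((Nat.pow_le_pow_left hρ 2).trans hR) Θ
  have hM0 : (0 : ℝ) < (Fintype.card (Finset (Sym2 V)) : ℝ) := by exact_mod_cast Fintype.card_pos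
  have hP' : (0 : ℝ) < Fintype.card (Option ρ → V) := by exact_mod_cast Fintype.card_pos
  have hV : (0 : ℝ) < Fintype.card V := by exact_mod_cast Fintype.card_pos
  have hle : 2 * (Fintype.card ρ : ℝ) / Fintype.card V ≤ 2 * (R : ℝ) / Fintype.card V := by
    have : (Fintype.card ρ : ℝ) ≤ R := by exact_mod_cast hρ
    gcongr
  rw [prob_eq, prob_eq, Fintype.card_prod, Fintype.sum_prod_type, sum_comm] at h2
  have h3 := h2.trans (add_le_add_right hle _)
  push_cast at h3
  rw [div_le_iff₀ (by positivity)] at h3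
  refine h3.trans (le_of_eq ?_)
  generalize (Fintype.card (Finset (Sym2 V)) : ℝ) = M at *
  generalize 2 * (R : ℝ) / Fintype.card V = δ at *
  field_simp

theorem stK_congr {C : Finset (Fin j)} {par : Fin j → Fin j} {i k : Ix B d m ⊕ Fin j}
    (hi : ∀ u, i = Sum.inr u → u ∈ C) (hk : ∀ u, k = Sum.inr u → u ∈ C) (hki : k ≠ i)
    (x y : Par V B d m j) (h : rel C par i x y) : stK C par k x = stK C par k y := by
  match i, k with
  | Sum.inl b, Sum.inl b' =>
    obtain ⟨p, rfl⟩ := h
    have h1 : b' ≠ b := fun hh => hki (congrArg Sum.inl hh)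
    simp only [stK]
    rw [Function.update_of_ne h1]
  | Sum.inl b, Sum.inr i' =>
    obtain ⟨p, rfl⟩ := h
    rfl
  | Sum.inr i0, Sum.inl b' =>
    obtain ⟨p, rfl⟩ := h
    rfl
  | Sum.inr i0, Sum.inr i' =>
    obtain ⟨p, rfl⟩ := h
    have h1 : i' ≠ i0 := fun hh => hki (congrArg Sum.inr hh)
    have h2 : i' ∈ C := hk i' rfl
    have h3 : i0 ∈ C := hi i0 rfl
    simp only [stK]
    congr 1
    funext o
    match o with
    | none =>
      simp only [getC, updC]
      rw [if_neg h1, dif_neg (fun hh => hh.1 h2)]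
    | some (Sum.inl b) =>
      simp only [getC, updC]
      rw [Function.update_of_ne h1]
    | some (Sum.inr w) =>
      have h4 : w.1 ≠ i0 := fun hh => w.2.1 (hh ▸ h3)
      have h5 : ¬ (w.1 ∉ C ∧ par w.1 = i0) := fun hh => h1 (w.2.2.symm.trans hh.2)
      simp only [getC, updC]
      rw [if_neg h4, dif_neg h5]

theorem base_union (G U : Finset (Sym2 V)) (pk : Ix B d m → Packet V B d m) (a : ℕ) :
    baseG (G ∪ U) pk a = baseG G pk a ∪ U := by
  unfold baseG
  ext e
  simp only [mem_union]
  tauto

theorem all_eq (C : Finset (Fin j)) (par : Fin j → Fin j) (hpar : ∀ w ∉ C, par w ∈ C) (a : Fin B)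
    (x : Par V B d m j) :
    (((univ.filter (fun i : Ix B d m => i.1 = a)).disjSum C).biUnion fun k => stK C par k x) =
      allG x.1 x.2.1 x.2.2 a C par := by
  ext e
  unfold allG
  simp only [mem_biUnion, mem_disjSum, mem_union, mem_image, mem_filter, mem_univ, true_and,
    mem_compl]
  constructor
  · rintro ⟨k, ⟨b, hb, rfl⟩ | ⟨i, hi, rfl⟩, he⟩
    · exact Or.inl (Or.inl ⟨b, hb, he⟩)
    · simp only [stK, Pool.Agent.T9h34.Q.star, mem_image, mem_univ, true_and] at he
      obtain ⟨r, rfl⟩ := he
      match r with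
      | Sum.inl b => exact Or.inl (Or.inr ⟨i, hi, b, rfl⟩)
      | Sum.inr w =>
        refine Or.inr ⟨w.1, w.2.1, ?_⟩
        rw [w.2.2]
        rfl
  · rintro ((⟨b, hb, he⟩ | ⟨i, hi, b, rfl⟩) | ⟨w, hw, rfl⟩)
    · exact ⟨Sum.inl b, Or.inl ⟨b, hb, rfl⟩, he⟩
    · refine ⟨Sum.inr i, Or.inr ⟨i, hi, rfl⟩, ?_⟩
      simp only [stK, Pool.Agent.T9h34.Q.star, mem_image, mem_univ, true_and]
      exact ⟨Sum.inl b, rfl⟩
    · refine ⟨Sum.inr (par w), Or.inr ⟨par w, hpar w hw, rfl⟩, ?_⟩
      simp only [stK, Pool.Agent.T9h34.Q.star, mem_image, mem_univ, true_and]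
      exact ⟨Sum.inr ⟨w, hw, rfl⟩, rfl⟩

theorem card_lf (C : Finset (Fin j)) (par : Fin j → Fin j) (i : Fin j) (hj : j ≤ d) :
    Fintype.card (Lf B d m C par i) ≤ Fintype.card (Rt B d m) := by
  classical
  have h1 : Fintype.card {w : Fin j // w ∉ C ∧ par w = i} ≤ j := by
    have := Fintype.card_subtype_le (fun w : Fin j => w ∉ C ∧ par w = i)
    rwa [Fintype.card_fin] at this
  have h2 : Fintype.card (Lf B d m C par i) =
      Fintype.card (Ix B d m) + Fintype.card {w : Fin j // w ∉ C ∧ par w = i} :=
    Fintype.card_sum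
  have h3 : Fintype.card (Rt B d m) = Fintype.card (Ix B d m) + d * (m + 1) := by
    have h4 : Fintype.card (Rt B d m) =
        Fintype.card (Ix B d m) + Fintype.card (Fin d × Fin (m + 1)) := by
      convert Fintype.card_sum (α := Ix B d m) (β := Fin d × Fin (m + 1))
    have h5 : Fintype.card (Fin d × Fin (m + 1)) = d * (m + 1) := by
      rw [Fintype.card_prod, Fintype.card_fin, Fintype.card_fin]
    rw [h4, h5]
  rw [h2, h3]
  nlinarith

end stars

/-- (H3) from (H1) -/
theorem stAllTV_of (H : StStar) : StAllTV := by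
  classical
  intro V _ _ _ B d m j a hj hR h hh hb C par hpar
  set R := Fintype.card (Rt B d m) with hRdef
  set I : Finset (Ix B d m ⊕ Fin j) := (univ.filter (fun i : Ix B d m => i.1 = a)).disjSum C
    with hI
  have hIC : ∀ i ∈ I, ∀ u, i = Sum.inr u → u ∈ C := by
    rintro i hi u rfl
    rw [hI, mem_disjSum] at hi
    rcases hi with ⟨b, -, hb⟩ | ⟨v, hv, hb⟩
    · exact absurd hb (by simp)
    · exact Sum.inr.inj hb ▸ hv
  set Θ : Par V B d m j → Finset (Sym2 V) → Prop := fun x G => h (baseG G x.2.2 a) = 1 with hΘdef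
  set δ' : ℝ := 2 * (R : ℝ) / Fintype.card V * Fintype.card (Finset (Sym2 V)) with hδ
  have hV : (0 : ℝ) < Fintype.card V := by exact_mod_cast Fintype.card_pos
  have key := all_steps (stK C par) (rel C par) (δ := δ') I ?_ ?_ Θ ?_
  · have h1 : ∀ (G : Finset (Sym2 V)) (x : Par V B d m j),
        (if h (baseG G x.2.2 a) < h (baseG G x.2.2 a ∪ allG x.1 x.2.1 x.2.2 a C par)
          then (1 : ℝ) else 0) =
        (if Θ x (G ∪ I.biUnion fun k => stK C par k x) then (1 : ℝ) else 0) -
          (if Θ x G then (1 : ℝ) else 0) := by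
      intro G x
      have h2 : Θ x (G ∪ I.biUnion fun k => stK C par k x) ↔
          h (baseG G x.2.2 a ∪ allG x.1 x.2.1 x.2.2 a C par) = 1 := by
        rw [hΘdef]
        dsimp only
        rw [base_union, hI, all_eq C par hpar a x]
      have h3 : h (baseG G x.2.2 a) ≤ h (baseG G x.2.2 a ∪ allG x.1 x.2.1 x.2.2 a C par) :=
        hh subset_union_left
      rw [if_congr h2 rfl rfl]
      show _ = _ - (if h (baseG G x.2.2 a) = 1 then (1 : ℝ) else 0)
      rcases hb (baseG G x.2.2 a) with e1 | e1 <;>
        rcases hb (baseG G x.2.2 a ∪ allG x.1 x.2.1 x.2.2 a C par) with e2 | e2 <;>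
        rw [e1, e2] at h3 ⊢ <;> first | (exfalso; norm_num at h3; done) | norm_num
    have hcard : (I.card : ℝ) ≤ ((d * m + j : ℕ) : ℝ) := by
      have h4 : I.card = (univ.filter (fun i : Ix B d m => i.1 = a)).card + C.card := by
        rw [hI, card_disjSum]
      have h5 : (univ.filter (fun i : Ix B d m => i.1 = a)).card ≤ d * m := by
        have h6 : (univ.filter (fun i : Ix B d m => i.1 = a)) ⊆
            (univ : Finset (Fin d × Fin m)).image fun y => ((a, y) : Ix B d m) := by
          intro i hi
          rw [mem_filter] at hi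
          rw [mem_image]
          exact ⟨i.2, mem_univ _, by rw [← hi.2]⟩
        refine (card_le_card h6).trans (card_image_le.trans ?_)
        rw [card_univ, Fintype.card_prod, Fintype.card_fin, Fintype.card_fin]
      have h7 : C.card ≤ j := by
        have := card_le_univ C
        rwa [Fintype.card_fin] at this
      have h8 : I.card ≤ d * m + j := by omega
      exact_mod_cast h8
    have hX : (0 : ℝ) < Fintype.card (Par V B d m j) := by exact_mod_cast Fintype.card_pos
    have hM : (0 : ℝ) < Fintype.card (Finset (Sym2 V)) := by exact_mod_cast Fintype.card_pos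
    have h9 : (∑ x : Finset (Sym2 V) × Par V B d m j,
        if h (baseG x.1 x.2.2.2 a) < h (baseG x.1 x.2.2.2 a ∪ allG x.2.1 x.2.2.1 x.2.2.2 a C par)
          then (1 : ℝ) else 0) =
        cnt (fun x G => Θ x (G ∪ I.biUnion fun k => stK C par k x)) - cnt Θ := by
      rw [Fintype.sum_prod_type, sum_comm]
      unfold cnt
      rw [← sum_sub_distrib]
      refine sum_congr rfl fun x _ => ?_
      rw [← sum_sub_distrib]
      exact sum_congr rfl fun G _ => h1 G x
    rw [prob_eq]
    have h10 : (Fintype.card (Finset (Sym2 V) × Par V B d m j) : ℝ) =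
        Fintype.card (Finset (Sym2 V)) * Fintype.card (Par V B d m j) := by
      rw [Fintype.card_prod]; push_cast; ring
    have h11 : (∑ x : Finset (Sym2 V) × Par V B d m j,
        if h (baseG x.1 x.2.2.2 a) < h (baseG x.1 x.2.2.2 a ∪ allG x.2.1 x.2.2.1 x.2.2.2 a C par)
          then (1 : ℝ) else 0) ≤ I.card * (Fintype.card (Par V B d m j) * δ') := by
      rw [h9]; linarith
    have h12 : (∑ x : Finset (Sym2 V) × Par V B d m j,
        if h (baseG x.1 x.2.2.2 a) < h (baseG x.1 x.2.2.2 a ∪ allG x.2.1 x.2.2.1 x.2.2.2 a C par)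
          then (1 : ℝ) else 0) / Fintype.card (Finset (Sym2 V) × Par V B d m j) ≤
        I.card * (2 * (R : ℝ) / Fintype.card V) := by
      rw [h10, div_le_iff₀ (by positivity)]
      refine h11.trans (le_of_eq ?_)
      rw [hδ]
      ring
    refine le_trans h12 ?_
    gcongr
  · intro i hi Θ' hΘ'
    match i with
    | Sum.inl b =>
      refine one_step (fun x : Par V B d m j => x.2.2 b)
        (fun x p => (x.1, x.2.1, Function.update x.2.2 b p)) (fun x p => by simp)
        (fun x p q => by simp) (fun x => by simp) Pool.Agent.T9h34.Q.star ?_ Fintype.card_pos Θ' ?_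
      · exact fun Θ => star_sum H le_rfl hR Θ
      · intro x p G
        exact (hΘ' x _ G ⟨p, rfl⟩).symm
    | Sum.inr i0 =>
      have hi0 : i0 ∈ C := hIC _ hi i0 rfl
      refine one_step (getC C par i0) (updC C par i0) (fun x p => get_updC hi0 x p)
        (fun x p q => upd_updC C par i0 x p q) (fun x => upd_getC C par i0 x)
        Pool.Agent.T9h34.Q.star ?_ Fintype.card_pos Θ' ?_
      · exact fun Θ => star_sum H (card_lf C par i0 hj) hR Θ
      · intro x p G
        exact (hΘ' x _ G ⟨p, rfl⟩).symm
  · intro i hi k hk hki x y hxy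
    exact stK_congr (hIC i hi) (hIC k hk) hki x y hxy
  · intro i hi x y G hxy
    match i with
    | Sum.inl b =>
      obtain ⟨p, rfl⟩ := hxy
      have hba : b.1 = a := by
        rw [hI, mem_disjSum] at hi
        rcases hi with ⟨b', hb', hb⟩ | ⟨v, -, hb⟩
        · rw [mem_filter] at hb'
          rw [← Sum.inl.inj hb]
          exact hb'.2
        · exact absurd hb (by simp)
      have h1 : baseG G (Function.update x.2.2 b p) a = baseG G x.2.2 a := by
        unfold baseG
        congr 1
        refine biUnion_congr rfl fun k hk => ?_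
        rw [Function.update_of_ne]
        rintro rfl
        unfold ixBelow at hk
        rw [mem_filter, hba] at hk
        exact lt_irrefl _ hk.2
      show h (baseG G x.2.2 a) = 1 ↔ h (baseG G (Function.update x.2.2 b p) a) = 1
      rw [h1]
    | Sum.inr i0 =>
      obtain ⟨p, rfl⟩ := hxy
      exact Iff.rfl

/-- (H3) -/
theorem stAllTV : StAllTV := stAllTV_of Pool.Agent.T9h68.QC.stStar

end Pool.Agent.T9h12.QC
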