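import Pool.Agent.T9h34.Q.Spec

set_option autoImplicit false

/-!
# Piece (E2): the edges of the pattern outside the star cover are absorbed by `G_0`
-/

namespace Pool.Agent.T9h12.QC

open Finset
open Pool.Agent.T9h34.Q

variable {V : Type} [Fintype V] [DecidableEq V] {B d m j : ℕ}

theorem phi_add (h : Finset (Sym2 V) → ℝ) (G K : Finset (Sym2 V))
    (pk : Ix B d m → Packet V B d m) (ν : V → Ix B d m → V) (a : ℕ) (X : Finset (Sym2 V))
    (A : Finset V) :
    phi h (G ∪ K, pk, ν) a X A = phi h (G, pk, ν) a (K ∪ X) A := by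
  unfold phi
  congr 1
  unfold stage marks
  ext e
  simp only [mem_union]
  tauto

theorem phi_mono {h : Finset (Sym2 V) → ℝ} (hh : Monotone h) (ω : Env V B d m) (a : ℕ)
    {X Y : Finset (Sym2 V)} (hXY : X ⊆ Y) (A : Finset V) : phi h ω a X A ≤ phi h ω a Y A :=
  hh (union_subset_union_right hXY)

theorem extra_imp {h : Finset (Sym2 V) → ℝ} (hh : Monotone h) {a : ℕ} {φ : Fin j → V}
    (hφ : Function.Injective φ) {F : Finset (Sym2 (Fin j))} {C A : Finset (Fin j)}
    {par : Fin j → Fin j} (hp : ∀ w ∉ C, par w ∈ C ∧ s(par w, w) ∈ F)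
    (pk : Ix B d m → Packet V B d m) (ν : V → Ix B d m → V) (G : Finset (Sym2 V))
    (hc : Crit h (G, pk, ν) a (F.image (Sym2.map φ)) (A.image φ) (univ.image φ)) :
    CritS h (G ∪ (F.image (Sym2.map φ) \ leafE φ par Cᶜ), pk, ν) a φ C A par := by
  obtain ⟨h1, h2⟩ := hc
  have hsub : leafE φ par Cᶜ ⊆ F.image (Sym2.map φ) := by
    intro e he
    unfold leafE at he
    obtain ⟨w, hw, rfl⟩ := mem_image.1 he
    exact mem_image.2 ⟨s(par w, w), (hp w (mem_compl.1 hw)).2, rfl⟩
  have hK : (F.image (Sym2.map φ) \ leafE φ par Cᶜ) ∪ leafE φ par Cᶜ = F.image (Sym2.map φ) :=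
    sdiff_union_of_subset hsub
  refine ⟨fun w hw => ?_, fun v hv => ?_⟩
  · rw [phi_add, phi_add, hK]
    have hmem : s(φ (par w), φ w) ∈ leafE φ par Cᶜ := mem_image.2 ⟨w, hw, rfl⟩
    refine lt_of_le_of_lt (phi_mono hh _ _ ?_ _) (h1 s(φ (par w), φ w) (hsub hmem))
    intro e he
    rw [mem_union] at he
    rw [mem_erase]
    rcases he with he | he
    · rw [mem_sdiff] at he
      exact ⟨fun hh' => he.2 (hh' ▸ hmem), he.1⟩
    · unfold leafE at he
      obtain ⟨w', hw', rfl⟩ := mem_image.1 he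
      rw [mem_erase] at hw'
      refine ⟨fun heq => ?_, hsub (mem_image.2 ⟨w', hw'.2, rfl⟩)⟩
      rw [Sym2.eq_iff] at heq
      rcases heq with ⟨-, h4⟩ | ⟨h3, -⟩
      · exact hw'.1 (hφ h4)
      · have h5 : par w' = w := hφ h3
        have h6 := (hp w' (mem_compl.1 hw'.2)).1
        rw [h5] at h6
        exact (mem_compl.1 hw) h6
  · rw [phi_add, phi_add, hK]
    have h3 : (A.erase v).image φ = (A.image φ).erase (φ v) := image_erase hφ A v
    rw [h3]
    exact h2 (φ v) (mem_image_of_mem φ hv)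

theorem stExtra : StChange → StExtra := by
  intro hE V _ _ B d m j a h hh φ hφ F C A par hAC hp pk ν
  classical
  set K := F.image (Sym2.map φ) \ leafE φ par Cᶜ with hKdef
  have h1 := hE (Sym2 V) K (fun G => CritS h (G, pk, ν) a φ C A par)
  have hcard : K.card ≤ F.card := (card_le_card sdiff_subset).trans card_image_le
  have h2 : Nat.card {G : Finset (Sym2 V) // Crit h (G, pk, ν) a (F.image (Sym2.map φ))
      (A.image φ) (univ.image φ)} ≤
      Nat.card {G : Finset (Sym2 V) // CritS h (G ∪ K, pk, ν) a φ C A par} := by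
    refine Nat.card_le_card_of_injective
      (fun G => ⟨G.1, extra_imp hh hφ hp pk ν G.1 G.2⟩) ?_
    intro G G' hG
    exact Subtype.ext (congrArg (fun x => x.1) hG)
  refine h2.trans (h1.trans ?_)
  exact Nat.mul_le_mul_right _ (Nat.pow_le_pow_right (by norm_num) hcard)

end Pool.Agent.T9h12.QC
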