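import Pool.Agent.T9h34.Q.Spec5

set_option autoImplicit false
set_option linter.unusedSectionVars false

/-!
# Piece (X5): the window circuit
-/

namespace Pool.Agent.T9h12.QC

open Finset
open Pool.Agent.T9h34.Q
open Pool.Agent.HC34 (srcs IsLevel DepthLE)
open Pool.Agent.T9h35.RW (Circuit Gate Src Test runGates Nondecreasing)

theorem forall2_getD {u v : List ℝ} (h : List.Forall₂ (· ≤ ·) u v) (j : ℕ) :
    u.getD j 0 ≤ v.getD j 0 := by
  induction h generalizing j with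
  | nil => simp
  | cons hab _ ih =>
    cases j with
    | zero => simpa using hab
    | succ j => simpa using ih j

theorem nondec_lin {a b c : ℝ} (ha : 0 ≤ a) (hb : 0 ≤ b) :
    Nondecreasing (fun l : List ℝ => a * l.getD 0 0 + b * l.getD 1 0 - c) := by
  intro u v h
  have h0 := mul_le_mul_of_nonneg_left (forall2_getD h 0) ha
  have h1 := mul_le_mul_of_nonneg_left (forall2_getD h 1) hb
  dsimp only
  linarith

theorem nondec_out (c θ o : ℝ) :
    Nondecreasing (fun l : List ℝ => if c ≤ l.getD 0 0 then (1 : ℝ) else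
      if θ ≤ l.getD 0 0 ∧ o ≤ l.getD 1 0 then 1 else 0) := by
  intro u v h
  have h0 := forall2_getD h 0
  have h1 := forall2_getD h 1
  dsimp only
  by_cases e1 : c ≤ v.getD 0 0
  · rw [if_pos e1]; split_ifs <;> norm_num
  · have e2 : ¬ c ≤ u.getD 0 0 := fun hh => e1 (hh.trans h0)
    rw [if_neg e1, if_neg e2]
    by_cases e3 : θ ≤ u.getD 0 0 ∧ o ≤ u.getD 1 0
    · rw [if_pos e3, if_pos ⟨e3.1.trans h0, e3.2.trans h1⟩]
    · rw [if_neg e3]; split_ifs <;> norm_num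

section prog

variable {ι : Type}

/-- the sum of the negated tests -/
noncomputable def tt (S : (ι → Bool) → ℝ) (c : ℝ) (w : ℕ → ℝ) : ℕ → (ι → Bool) → ℝ
  | 0 => fun _ => 0
  | i + 1 => fun x => tt S c w i x + w i * (if c - w i ≤ S x + tt S c w i x then 0 else 1)

theorem add_tests (P1 : StP1) (P2 : StP2) {f s ℓ : ℕ} {S : (ι → Bool) → ℝ} {c : ℝ} {w : ℕ → ℝ}
    (hf : 2 ≤ f) (hw : ∀ i, 0 ≤ w i) {𝓕 : Set (((ι → Bool) → ℝ) × ℕ)} (h : Prog f s ℓ 0 𝓕)
    (hS : (S, ℓ) ∈ 𝓕) (h0 : ((fun _ => (0 : ℝ)), ℓ) ∈ 𝓕) (T : ℕ) :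
    ∃ 𝓖 : Set (((ι → Bool) → ℝ) × ℕ), 𝓕 ⊆ 𝓖 ∧ ((fun x => S x + tt S c w T x), ℓ + 2 * T) ∈ 𝓖 ∧
      (tt S c w T, ℓ + 2 * T) ∈ 𝓖 ∧ Prog f (s + 3 * T) (ℓ + 2 * T) T 𝓖 := by
  induction T with
  | zero =>
    refine ⟨𝓕, subset_rfl, ?_, h0, h⟩
    have : (fun x => S x + tt S c w 0 x) = S := by
      funext x
      simp [tt]
    rw [this]
    exact hS
  | succ T ih =>
    obtain ⟨𝓖, h1, h2, h3, h4⟩ := ih
    set F : (ι → Bool) → ℝ := fun x => S x + tt S c w T x with hF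
    set N : (ι → Bool) → ℝ := fun x => if c - w T ≤ F x then 0 else 1 with hN
    have h5 := P2 ι f (s + 3 * T) (ℓ + 2 * T) T (ℓ + 2 * T) (ℓ + 2 * T + 1) 𝓖 F (c - w T) h4 h2
      (Nat.le_succ _) le_rfl
    have h6 := P1 ι f (s + 3 * T + 1) (ℓ + 2 * T + 1) (T + 1) (ℓ + 2 * T + 1) (ℓ + 2 * T + 2)
      (insert (N, ℓ + 2 * T + 1) 𝓖) [(F, ℓ + 2 * T), (N, ℓ + 2 * T + 1)]
      (fun l : List ℝ => 1 * l.getD 0 0 + w T * l.getD 1 0 - 0) h5 ?_ (by simpa using hf)
      (nondec_lin zero_le_one (hw T)) (Nat.le_succ _) le_rfl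
    · have h7 := P1 ι f (s + 3 * T + 1 + 1) (ℓ + 2 * T + 2) (T + 1) (ℓ + 2 * T + 1) (ℓ + 2 * T + 2)
        _ [(tt S c w T, ℓ + 2 * T), (N, ℓ + 2 * T + 1)]
        (fun l : List ℝ => 1 * l.getD 0 0 + w T * l.getD 1 0 - 0) h6 ?_ (by simpa using hf)
        (nondec_lin zero_le_one (hw T)) le_rfl le_rfl
      · have e1 : s + 3 * (T + 1) = s + 3 * T + 1 + 1 + 1 := by ring
        have e2 : ℓ + 2 * (T + 1) = ℓ + 2 * T + 2 := by ring
        rw [← e1, ← e2] at h7
        refine ⟨_, ?_, ?_, ?_, h7⟩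
        · exact h1.trans ((Set.subset_insert _ _).trans
            ((Set.subset_insert _ _).trans (Set.subset_insert _ _)))
        · refine Set.mem_insert_of_mem _ ?_
          refine Set.mem_insert_iff.2 (Or.inl ?_)
          refine Prod.ext ?_ (by show ℓ + 2 * (T + 1) = _; ring)
          funext x
          simp [tt, hN, hF]
          ring
        · refine Set.mem_insert_iff.2 (Or.inl ?_)
          refine Prod.ext ?_ (by show ℓ + 2 * (T + 1) = _; ring)
          funext x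
          simp [tt, hN, hF]
      · intro p hp
        simp only [List.mem_cons, List.not_mem_nil, or_false] at hp
        rcases hp with rfl | rfl
        · exact ⟨Set.mem_insert_of_mem _ (Set.mem_insert_of_mem _ h3), by simp⟩
        · exact ⟨Set.mem_insert_of_mem _ (Set.mem_insert _ _), le_rfl⟩
    · intro p hp
      simp only [List.mem_cons, List.not_mem_nil, or_false] at hp
      rcases hp with rfl | rfl
      · exact ⟨Set.mem_insert_of_mem _ h2, by simp⟩
      · exact ⟨Set.mem_insert _ _, le_rfl⟩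

theorem add_z (P1 : StP1) [DecidableEq ι] {f s ℓ T : ℕ} {Sp : ι → (ι → Bool) → ℝ}
    {t : (ι → Bool) → ℝ} {c : ℝ} (hf : 2 ≤ f) {𝓕 : Set (((ι → Bool) → ℝ) × ℕ)}
    (h : Prog f s ℓ T 𝓕) {ℓ' : ℕ} (hℓ : ℓ' ≤ ℓ) (hS : ∀ p, (Sp p, ℓ') ∈ 𝓕) (ht : (t, ℓ) ∈ 𝓕)
    (A : Finset ι) :
    ∃ 𝓖 : Set (((ι → Bool) → ℝ) × ℕ), 𝓕 ⊆ 𝓖 ∧
      (∀ p ∈ A, ((fun x => Sp p x + t x - c), ℓ + 1) ∈ 𝓖) ∧
      Prog f (s + A.card) (ℓ + 1) T 𝓖 := by
  induction A using Finset.induction_on with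
  | empty =>
    obtain ⟨gs, lev, a1, a2, a3, a4, a5, a6⟩ := h
    exact ⟨𝓕, subset_rfl, by simp, gs, lev, by simpa using a1, a2, a3, a4,
      fun j hj => (a5 j hj).trans (Nat.lt_succ_self _), a6⟩
  | insert p A hp ih =>
    obtain ⟨𝓖, h1, h2, h3⟩ := ih
    have h4 := P1 ι f (s + A.card) (ℓ + 1) T ℓ (ℓ + 1) 𝓖 [(Sp p, ℓ'), (t, ℓ)]
      (fun l : List ℝ => 1 * l.getD 0 0 + 1 * l.getD 1 0 - c) h3 ?_ (by simpa using hf)
      (nondec_lin zero_le_one zero_le_one) le_rfl le_rfl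
    · rw [card_insert_of_notMem hp, ← add_assoc]
      refine ⟨_, h1.trans (Set.subset_insert _ _), ?_, h4⟩
      intro q hq
      rcases mem_insert.1 hq with rfl | hq
      · refine Set.mem_insert_iff.2 (Or.inl ?_)
        refine Prod.ext ?_ rfl
        funext x
        simp
      · exact Set.mem_insert_of_mem _ (h2 q hq)
    · intro q hq
      simp only [List.mem_cons, List.not_mem_nil, or_false] at hq
      rcases hq with rfl | rfl
      · exact ⟨h1 (hS p), hℓ⟩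
      · exact ⟨h1 ht, le_rfl⟩

theorem tt_window {S : (ι → Bool) → ℝ} {x : ι → Bool} {T θ o : ℕ} (hS : S x = o) (h1 : θ ≤ o)
    (h2 : o < θ + 2 ^ T) {c : ℝ} (hc : c = θ + 2 ^ T) :
    S x + tt S c (fun i => 2 ^ (T - 1 - i)) T x = c - 1 := by
  have key : ∀ i ≤ T, ∃ m : ℕ, m < 2 ^ (T - i) ∧
      c - 1 - (S x + tt S c (fun i => 2 ^ (T - 1 - i)) i x) = m := by
    intro i
    induction i with
    | zero =>
      intro _
      refine ⟨θ + 2 ^ T - 1 - o, ?_, ?_⟩
      · rw [Nat.sub_zero]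
        have : 0 < 2 ^ T := by positivity
        omega
      · have e1 : ((θ + 2 ^ T - 1 - o : ℕ) : ℝ) = (θ : ℝ) + 2 ^ T - 1 - o := by
          have e2 : 0 < 2 ^ T := by positivity
          have e3 : θ + 2 ^ T - 1 - o + (1 + o) = θ + 2 ^ T := by omega
          have e4 : ((θ + 2 ^ T - 1 - o : ℕ) : ℝ) + (1 + o) = θ + 2 ^ T := by exact_mod_cast e3
          linarith
        rw [e1, hS, hc]
        simp only [tt]
        ring
    | succ i ih =>
      intro hi
      obtain ⟨m, hm, hm'⟩ := ih (by omega)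
      have e0 : T - i = (T - 1 - i) + 1 := by omega
      have e1 : T - (i + 1) = T - 1 - i := by omega
      rw [e0, pow_succ] at hm
      rw [e1]
      simp only [tt]
      set W : ℕ := 2 ^ (T - 1 - i) with hW
      have hW' : (2 : ℝ) ^ (T - 1 - i) = W := by rw [hW]; push_cast; rfl
      simp only [hW']
      have hiff : (c - (W : ℝ) ≤ S x + tt S c (fun i => 2 ^ (T - 1 - i)) i x) ↔ m < W := by
        have e2 : (m : ℝ) < W ↔ m < W := Nat.cast_lt
        have e3 : (m : ℝ) + 1 ≤ W ↔ m < W := by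
          rw [← Nat.cast_succ, Nat.cast_le, Nat.succ_le_iff]
        rw [← e3, ← hm']
        constructor <;> intro hh <;> linarith
      by_cases hmw : m < W
      · rw [if_pos (hiff.2 hmw)]
        refine ⟨m, hmw, ?_⟩
        rw [← hm']
        ring
      · rw [if_neg (fun hh => hmw (hiff.1 hh))]
        refine ⟨m - W, by omega, ?_⟩
        rw [Nat.cast_sub (not_lt.1 hmw), ← hm']
        ring
  obtain ⟨m, hm, hm'⟩ := key T le_rfl
  have : m = 0 := by
    rw [Nat.sub_self, pow_zero] at hm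
    omega
  rw [this, Nat.cast_zero] at hm'
  linarith

theorem circ_of_prog {f s D T ℓ : ℕ} {𝓕 : Set (((ι → Bool) → ℝ) × ℕ)} (h : Prog f s D T 𝓕)
    {F : (ι → Bool) → ℝ} (hF : (F, ℓ) ∈ 𝓕) :
    ∃ C : Circuit ι, C.FanIn f 1 ∧ C.numTests = T ∧ C.size ≤ s ∧ DepthLE C D ∧
      ∀ x, C.eval x = true ↔ 1 ≤ F x := by
  obtain ⟨gs, lev, h1, h2, h3, h4, h5, h6⟩ := h
  obtain ⟨a, -, ha⟩ := h6 _ hF
  refine ⟨⟨gs, (a, 1)⟩, h3, h2, h1, ⟨lev, h5, fun i j g => h4 i j g⟩, fun x => ?_⟩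
  unfold Circuit.eval Test.eval
  rw [decide_eq_true_iff]
  dsimp only
  rw [ha x]

end prog

/-- the enumeration of the inputs -/
noncomputable def en (ι : Type) [Fintype ι] (N : ℕ) (i : Fin N) : Option ι :=
  if h : i.1 < Fintype.card ι then some ((Fintype.equivFin ι).symm ⟨i.1, h⟩) else none

/-- the summands of the sums of all inputs but one -/
noncomputable def GG (ι : Type) [Fintype ι] [DecidableEq ι] (N : ℕ) (k : Option ι) (i : Fin N) :
    (ι → Bool) → ℝ :=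
  match en ι N i with
  | none => fun _ => 0
  | some p => if k = some p then fun _ => 0 else inp p

theorem sum_GG {ι : Type} [Fintype ι] [DecidableEq ι] {N : ℕ} (hN : Fintype.card ι ≤ N)
    (k : Option ι) (x : ι → Bool) :
    ∑ i, GG ι N k i x = ∑ p, if k = some p then 0 else inp p x := by
  symm
  refine Fintype.sum_of_injective
    (fun p : ι => (⟨(Fintype.equivFin ι p).1, (Fintype.equivFin ι p).2.trans_le hN⟩ : Fin N))
    ?_ _ _ ?_ ?_
  · intro p q hpq
    have h1 : (Fintype.equivFin ι p).1 = (Fintype.equivFin ι q).1 := Fin.mk.inj hpq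
    exact (Fintype.equivFin ι).injective (Fin.ext h1)
  · intro i hi
    have h1 : en ι N i = none := by
      unfold en
      rw [dif_neg]
      intro h
      refine hi ⟨(Fintype.equivFin ι).symm ⟨i.1, h⟩, ?_⟩
      simp
    unfold GG
    rw [h1]
  · intro p
    have h1 : en ι N ⟨(Fintype.equivFin ι p).1, (Fintype.equivFin ι p).2.trans_le hN⟩ = some p := by
      unfold en
      rw [dif_pos (Fintype.equivFin ι p).2]
      simp
    unfold GG
    rw [h1]
    dsimp only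
    split_ifs <;> rfl

theorem stP5 (P0 : StP0) (P1 : StP1) (P2 : StP2) (P3 : StP3) (P4 : StP4) : StP5 := by
  classical
  intro ι _ _ f d' DA T θ A hf hA hd hDA
  set n := Fintype.card ι with hn
  set L := Nat.clog 2 n with hL
  have hnL : n ≤ 2 ^ L := Nat.le_pow_clog (by norm_num) n
  have hL2 : 2 ^ L ≤ 2 * n + 1 := by
    rcases Nat.lt_or_ge 1 n with h | h
    · have h1 := Nat.pow_pred_clog_lt_self (b := 2) (by norm_num) h
      have h2 : 0 < Nat.clog 2 n := Nat.clog_pos (by norm_num) h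
      have h3 : 2 ^ L = 2 ^ (Nat.clog 2 n).pred * 2 := by
        rw [← pow_succ]
        exact congrArg (2 ^ ·) (Nat.succ_pred_eq_of_pos h2).symm
      omega
    · have h1 : L = 0 := by
        rw [hL]
        exact Nat.clog_of_right_le_one h 2
      rw [h1]
      omega
  set 𝓕₀ : Set (((ι → Bool) → ℝ) × ℕ) :=
    {p : ((ι → Bool) → ℝ) × ℕ | (∃ i, p.1 = inp i) ∨ ∃ c : ℝ, p.1 = fun _ => c} with h𝓕
  have q0 : Prog f 0 0 0 𝓕₀ := P0 ι f
  have q1 := P3 ι (Option ι) f 0 0 0 0 L L 𝓕₀ (GG ι (2 ^ L)) q0 hf ?_ (Nat.zero_le _) (by simp)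
  swap
  · intro k i
    unfold GG
    split
    · exact Or.inr ⟨0, rfl⟩
    · split_ifs
      · exact Or.inr ⟨0, rfl⟩
      · exact Or.inl ⟨_, rfl⟩
  set S : (ι → Bool) → ℝ := fun x => ∑ i, GG ι (2 ^ L) none i x with hS
  set Sp : ι → (ι → Bool) → ℝ := fun p x => ∑ i, GG ι (2 ^ L) (some p) i x with hSp
  set s1 := 0 + Fintype.card (Option ι) * 2 ^ L with hs1
  set 𝓕₁ := 𝓕₀ ∪ Set.range (fun k : Option ι => ((fun x => ∑ i, GG ι (2 ^ L) k i x), 0 + L))
    with h𝓕1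
  have m1 : (S, L) ∈ 𝓕₁ := Or.inr ⟨none, by simp [hS]⟩
  have m2 : ∀ p, (Sp p, L) ∈ 𝓕₁ := fun p => Or.inr ⟨some p, by simp [hSp]⟩
  set c : ℝ := θ + 2 ^ T with hc
  set w : ℕ → ℝ := fun i => 2 ^ (T - 1 - i) with hw
  obtain ⟨𝓕₂, a1, a2, a3, a4⟩ := add_tests P1 P2 (S := S) (c := c) (w := w) hf
    (fun i => by rw [hw]; positivity) q1 m1 (Or.inl (Or.inr ⟨0, rfl⟩)) T
  obtain ⟨𝓕₃, b1, b2, b3⟩ := add_z P1 (Sp := Sp) (t := tt S c w T) (c := c - 1) hf a4
    (ℓ' := L) (Nat.le_add_right _ _) (fun p => a1 (m2 p)) a3 univ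
  have hsub : ∀ p ∈ 𝓕₀, p ∈ 𝓕₃ := fun p hp => b1 (a1 (Or.inl hp))
  obtain ⟨W, hW, q4⟩ := P4 ι f _ _ T (L + 2 * T + 1) f d' DA 𝓕₃
    (fun p x => Sp p x + tt S c w T x - (c - 1)) A b3 (fun p => b2 p (mem_univ _))
    (fun i => hsub _ (Or.inl ⟨i, rfl⟩)) (fun e => hsub _ (Or.inr ⟨e, rfl⟩)) hA le_rfl hd hDA
    (Nat.le_add_right _ _)
  have q5 := P1 ι f _ _ T (L + 2 * T + 1 + DA) (L + 2 * T + 1 + DA + 1) _
    [(S, L), (W, L + 2 * T + 1 + DA)]
    (fun l : List ℝ => if c ≤ l.getD 0 0 then (1 : ℝ) else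
      if (θ : ℝ) ≤ l.getD 0 0 ∧ A.out.2 ≤ l.getD 1 0 then 1 else 0) q4 ?_ (by simpa using hf)
      (nondec_out c θ A.out.2) (Nat.le_succ _) le_rfl
  swap
  · intro p hp
    simp only [List.mem_cons, List.not_mem_nil, or_false] at hp
    rcases hp with rfl | rfl
    · exact ⟨Set.mem_insert_of_mem _ (b1 (a1 m1)), by simp only; omega⟩
    · exact ⟨Set.mem_insert _ _, le_rfl⟩
  obtain ⟨C, c1, c2, c3, c4, c5⟩ := circ_of_prog q5 (Set.mem_insert _ _)
  refine ⟨C, c1, c2, ?_, ?_, ?_⟩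
  · refine c3.trans ?_
    rw [hs1, Fintype.card_option, card_univ, ← hn]
    have h1 : (n + 1) * 2 ^ L ≤ (n + 1) * (2 * n + 1) := Nat.mul_le_mul_left _ hL2
    omega
  · obtain ⟨lev, d1, d2⟩ := c4
    refine ⟨lev, fun j hj => (d1 j hj).trans_le ?_, d2⟩
    omega
  · intro x
    have hSx : S x = (ones x : ℝ) := by
      rw [hS]
      dsimp only
      rw [sum_GG hnL]
      unfold ones inp
      simp [Finset.sum_boole]
    have hSpx : ∀ p, Sp p x = S x - inp p x := by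
      intro p
      rw [hSp, hS]
      dsimp only
      rw [sum_GG hnL, sum_GG hnL, eq_sub_iff_add_eq]
      have e1 : inp p x = ∑ q, if some p = some q then inp q x else 0 := by
        simp
      rw [e1, ← sum_add_distrib]
      refine sum_congr rfl fun q _ => ?_
      by_cases h : some p = some q
      · rw [if_pos h, if_pos h, if_neg (by simp)]; ring
      · rw [if_neg h, if_neg h, if_neg (by simp)]; ring
    rw [c5]
    simp only [List.map_cons, List.map_nil, List.getD_cons_zero, List.getD_cons_succ]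
    have hc' : (c ≤ S x) ↔ θ + 2 ^ T ≤ ones x := by
      rw [hSx, hc]
      exact_mod_cast Iff.rfl
    have hθ' : ((θ : ℝ) ≤ S x) ↔ θ ≤ ones x := by
      rw [hSx]
      exact Nat.cast_le
    by_cases g1 : θ + 2 ^ T ≤ ones x
    · rw [if_pos (hc'.2 g1)]
      simp [g1]
    · rw [if_neg (fun h => g1 (hc'.1 h))]
      by_cases g2 : θ ≤ ones x
      · have h1 := tt_window (S := S) (x := x) (T := T) (θ := θ) (o := ones x) hSx g2
          (not_le.1 g1) hc
        have h2 : ∀ i, Sp i x + tt S c w T x - (c - 1) = - inp i x := by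
          intro i
          rw [hSpx i]
          have h3 : S x + tt S c w T x = c - 1 := h1
          linarith
        have h3 := hW x h2
        by_cases g3 : A.out.2 ≤ W x
        · rw [if_pos ⟨hθ'.2 g2, g3⟩]
          simp [g1, g2, not_le.1 g1, h3.1 g3]
        · rw [if_neg (fun h => g3 h.2)]
          have g4 : A.eval x ≠ true := fun h => g3 (h3.2 h)
          simp [g1, g4]
      · rw [if_neg (fun h => g2 (hθ'.1 h.1))]
        simp [g1, g2]

end Pool.Agent.T9h12.QC
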